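import Mathlib

/-!
Combinatorial core: an ultrafilter on the naturals of character continuum which is the limit of a
free sequence of length omega one of ultrafilters.
-/

open Set Filter
open scoped Cardinal

namespace Pool.Agent.P.MP_f21612_lc

/-- A family closed under intersections and made of nonempty sets lies in an ultrafilter. -/
theorem exists_ultra (S : Set (Set ℕ)) (hne : S.Nonempty)
    (hint : ∀ X ∈ S, ∀ Y ∈ S, X ∩ Y ∈ S) (h0 : ∀ X ∈ S, X.Nonempty) :
    ∃ U : Ultrafilter ℕ, ∀ X ∈ S, X ∈ U := by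
  let B : FilterBasis ℕ :=
    { sets := S
      nonempty := hne
      inter_sets := fun {x y} hx hy => ⟨x ∩ y, hint x hx y hy, Subset.rfl⟩ }
  have hB : B.filter.NeBot := by
    rw [B.hasBasis.neBot_iff]
    intro X hX
    exact h0 X hX
  refine ⟨Ultrafilter.of B.filter, fun X hX => ?_⟩
  exact Ultrafilter.of_le B.filter (B.mem_filter_of_mem hX)

section cells

variable {ι : Type} (a : ι → ℕ → Bool)

/-- The Boolean combination described by a finite condition. -/
def cell (c : Finset (ι × Bool)) : Set ℕ := {n | ∀ p ∈ c, a p.1 n = p.2}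

/-- Syntactic consistency of a condition. -/
def Cons (c : Finset (ι × Bool)) : Prop := ∀ i, ¬ ((i, true) ∈ c ∧ (i, false) ∈ c)

theorem cell_union [DecidableEq ι] (c d : Finset (ι × Bool)) :
    cell a (c ∪ d) = cell a c ∩ cell a d := by
  ext n
  simp only [cell, Finset.mem_union, mem_ofPred_eq, mem_inter_iff]
  constructor
  · intro h
    exact ⟨fun p hp => h p (Or.inl hp), fun p hp => h p (Or.inr hp)⟩
  · rintro ⟨h1, h2⟩ p (hp | hp)
    · exact h1 p hp
    · exact h2 p hp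

theorem cell_empty : cell a ∅ = univ := by
  ext n; simp [cell]

theorem cons_of_nonempty {c : Finset (ι × Bool)} (h : (cell a c).Nonempty) : Cons c := by
  obtain ⟨n, hn⟩ := h
  rintro i ⟨h1, h2⟩
  have e1 := hn _ h1
  have e2 := hn _ h2
  simp only at e1 e2
  rw [e1] at e2
  exact Bool.noConfusion e2

end cells

/-- An independent family of size continuum on the naturals. -/
theorem exists_indep : ∃ a : Set ℕ → ℕ → Bool, ∀ c, Cons c → (cell a c).Infinite := by
  classical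
  let e : ℕ ≃ ℕ × Finset (Finset ℕ) := (Denumerable.eqv _).symm
  let tr : ℕ → Set ℕ → Finset ℕ := fun n x => (Finset.range n).filter (· ∈ x)
  refine ⟨fun x m => decide (tr (e m).1 x ∈ (e m).2), fun c hc => ?_⟩
  have hev : ∀ᶠ n in atTop, ∀ p ∈ c, ∀ q ∈ c, p.1 ≠ q.1 → tr n p.1 ≠ tr n q.1 := by
    rw [Filter.eventually_all_finset]
    intro p _
    rw [Filter.eventually_all_finset]
    intro q _
    by_cases hpq : p.1 = q.1
    · exact Filter.Eventually.of_forall fun n h => absurd hpq h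
    · have : ∃ k, ¬ (k ∈ p.1 ↔ k ∈ q.1) := by
        by_contra hcon
        push Not at hcon
        exact hpq (Set.ext hcon)
      obtain ⟨k, hk⟩ := this
      filter_upwards [Filter.eventually_gt_atTop k] with n hn _ heq
      apply hk
      have h1 : k ∈ tr n p.1 ↔ k ∈ tr n q.1 := by rw [heq]
      simpa [tr, hn] using h1
  obtain ⟨N, hN⟩ := Filter.eventually_atTop.1 hev
  let S : ℕ → Finset (Finset ℕ) := fun n => (c.filter (fun p => p.2 = true)).image (fun p => tr n p.1)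
  let f : ℕ → ℕ := fun n => e.symm (n + N, S (n + N))
  have hf : Function.Injective f := by
    intro n m h
    have := e.symm.injective h
    simpa using congrArg Prod.fst this
  refine Set.infinite_of_injective_forall_mem hf fun n => ?_
  intro p hp
  simp only [f, Equiv.apply_symm_apply]
  rcases p with ⟨i, b⟩
  cases b
  · simp only [decide_eq_false_iff_not, S, Finset.mem_image, Finset.mem_filter, not_exists, not_and]
    rintro ⟨j, b'⟩ ⟨hj, hb'⟩ heq
    simp only at hb' heq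
    subst hb'
    by_cases hij : j = i
    · subst hij
      exact hc j ⟨hj, hp⟩
    · exact hN (n + N) (Nat.le_add_left _ _) _ hj _ hp hij heq
  · simp only [decide_eq_true_eq, S, Finset.mem_image, Finset.mem_filter]
    exact ⟨(i, true), ⟨hp, rfl⟩, rfl⟩

/-- A filter maximal with respect to keeping the family independent. -/
theorem exists_maxFilter {ι : Type} (a : ι → ℕ → Bool) (ha : ∀ c, Cons c → (cell a c).Infinite) :
    ∃ F : Filter ℕ, F ≤ cofinite ∧ (∀ c, Cons c → (cell a c)ᶜ ∉ F) ∧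
      ∀ X : Set ℕ, Xᶜ ∉ F → ∃ c, Cons c ∧ {n | n ∈ cell a c → n ∈ X} ∈ F := by
  let P : Set (Filter ℕ)ᵒᵈ := {F | OrderDual.ofDual F ≤ cofinite ∧
    ∀ c, Cons c → (cell a c)ᶜ ∉ OrderDual.ofDual F}
  have h0 : OrderDual.toDual cofinite ∈ P := by
    refine ⟨le_rfl, fun c hc h => ?_⟩
    have h' : (cell a c)ᶜ ∈ (cofinite : Filter ℕ) := h
    rw [Filter.mem_cofinite, compl_compl] at h'
    exact ha c hc h'
  obtain ⟨F, -, hF⟩ := zorn_le_nonempty₀ P (by
    intro C hCP hC y hy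
    refine ⟨OrderDual.toDual (⨅ G ∈ C, OrderDual.ofDual G), ⟨?_, ?_⟩, ?_⟩
    · exact le_trans (biInf_le (fun G => OrderDual.ofDual G) hy) (hCP hy).1
    · intro c hc h
      have h' : (cell a c)ᶜ ∈ ⨅ G ∈ C, OrderDual.ofDual G := h
      rw [Filter.mem_biInf_of_directed _ ⟨y, hy⟩] at h'
      · obtain ⟨G, hG, hG'⟩ := h'
        exact (hCP hG).2 c hc hG'
      · exact hC.directedOn
    · intro z hz
      exact biInf_le (fun G => OrderDual.ofDual G) hz) _ h0
  refine ⟨OrderDual.ofDual F, hF.prop.1, hF.prop.2, fun X hX => ?_⟩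
  by_contra hcon
  push Not at hcon
  have hG : OrderDual.toDual (OrderDual.ofDual F ⊓ 𝓟 Xᶜ) ∈ P := by
    refine ⟨le_trans inf_le_left hF.prop.1, fun c hc h => ?_⟩
    have h' : (cell a c)ᶜ ∈ OrderDual.ofDual F ⊓ 𝓟 Xᶜ := h
    rw [Filter.mem_inf_principal] at h'
    apply hcon c hc
    filter_upwards [h'] with n hn h1
    by_contra h2
    exact hn h2 h1
  have hle : F ≤ OrderDual.toDual (OrderDual.ofDual F ⊓ 𝓟 Xᶜ) :=
    (inf_le_left : OrderDual.ofDual F ⊓ 𝓟 Xᶜ ≤ OrderDual.ofDual F)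
  have hge : OrderDual.ofDual F ≤ OrderDual.ofDual F ⊓ 𝓟 Xᶜ := hF.le_of_ge hG hle
  exact hX (Filter.le_principal_iff.1 (le_trans hge inf_le_right))

section support

variable {ι : Type} [DecidableEq ι] (a : ι → ℕ → Bool) (F : Filter ℕ)

/-- The condition forces the set modulo the filter. -/
def Forces (c : Finset (ι × Bool)) (X : Set ℕ) : Prop := {n | n ∈ cell a c → n ∈ X} ∈ F

/-- The index set supports the set. -/
def Supp (X : Set ℕ) (D : Set ι) : Prop :=
  ∀ t, Cons t → ∃ s : Finset (ι × Bool), (∀ p ∈ s, p.1 ∈ D) ∧ Cons (s ∪ t) ∧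
    (Forces a F s X ∨ Forces a F s Xᶜ)

variable {a F}

omit [DecidableEq ι] in
theorem Forces.mono {c d : Finset (ι × Bool)} {X Y : Set ℕ} (h : Forces a F c X)
    (hcd : cell a d ⊆ cell a c) (hXY : X ⊆ Y) : Forces a F d Y := by
  unfold Forces at *
  filter_upwards [h] with n hn h1
  exact hXY (hn (hcd h1))

omit [DecidableEq ι] in
theorem pos_nonempty {X Z : Set ℕ} (hX : Xᶜ ∉ F) (hZ : Z ∈ F) : (Z ∩ X).Nonempty := by
  by_contra h
  apply hX
  filter_upwards [hZ] with n hn hnX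
  exact h ⟨n, hn, hnX⟩

theorem Supp.inter {X Y : Set ℕ} {D E : Set ι} (hX : Supp a F X D) (hY : Supp a F Y E) :
    Supp a F (X ∩ Y) (D ∪ E) := by
  intro t ht
  obtain ⟨s1, hs1, hc1, hd1⟩ := hX t ht
  obtain ⟨s2, hs2, hc2, hd2⟩ := hY _ hc1
  refine ⟨s2 ∪ s1, ?_, by rwa [Finset.union_assoc], ?_⟩
  · intro p hp
    rcases Finset.mem_union.1 hp with h | h
    · exact Or.inr (hs2 p h)
    · exact Or.inl (hs1 p h)
  · have e1 : cell a (s2 ∪ s1) ⊆ cell a s1 := by rw [cell_union]; exact inter_subset_right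
    have e2 : cell a (s2 ∪ s1) ⊆ cell a s2 := by rw [cell_union]; exact inter_subset_left
    rcases hd1 with h1 | h1
    · rcases hd2 with h2 | h2
      · left
        unfold Forces at *
        filter_upwards [h1, h2] with n hn1 hn2 hn
        exact ⟨hn1 (e1 hn), hn2 (e2 hn)⟩
      · exact Or.inr (h2.mono e2 (compl_subset_compl.2 inter_subset_right))
    · exact Or.inr (h1.mono e1 (compl_subset_compl.2 inter_subset_left))

theorem supp_univ : Supp a F univ ∅ := by
  intro t ht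
  refine ⟨∅, by simp, by simpa using ht, Or.inl ?_⟩
  unfold Forces
  simp

theorem exists_countable_supp (hpos : ∀ c, Cons c → (cell a c)ᶜ ∉ F)
    (hmax : ∀ X : Set ℕ, Xᶜ ∉ F → ∃ c, Cons c ∧ Forces a F c X) (X : Set ℕ) :
    ∃ D : Set ι, D.Countable ∧ Supp a F X D := by
  classical
  have hch : ∀ n : ℕ, ∃ s : Finset (ι × Bool),
      (∃ s' : Finset (ι × Bool), n ∈ cell a s' ∧ (Forces a F s' X ∨ Forces a F s' Xᶜ)) →
        (n ∈ cell a s ∧ (Forces a F s X ∨ Forces a F s Xᶜ)) := by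
    intro n
    by_cases h : ∃ s' : Finset (ι × Bool), n ∈ cell a s' ∧ (Forces a F s' X ∨ Forces a F s' Xᶜ)
    · obtain ⟨s', hs'⟩ := h
      exact ⟨s', fun _ => hs'⟩
    · exact ⟨∅, fun h' => absurd h' h⟩
  choose s hs using hch
  refine ⟨⋃ n, Prod.fst '' (s n : Set (ι × Bool)), ?_, ?_⟩
  · exact countable_iUnion fun n => ((s n).finite_toSet.image _).countable
  · intro t ht
    have key : ∀ Y : Set ℕ, (cell a t ∩ Y)ᶜ ∉ F →
        ∃ c n, n ∈ cell a c ∧ n ∈ cell a t ∧ Forces a F c Y := by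
      intro Y hY
      obtain ⟨c, hc, hf⟩ := hmax _ hY
      obtain ⟨n, hn1, hn2⟩ := pos_nonempty (hpos c hc) hf
      exact ⟨c, n, hn2, (hn1 hn2).1, hf.mono Subset.rfl inter_subset_right⟩
    have hex : ∃ c n, n ∈ cell a c ∧ n ∈ cell a t ∧ (Forces a F c X ∨ Forces a F c Xᶜ) := by
      by_cases h1 : (cell a t ∩ X)ᶜ ∈ F
      · by_cases h2 : (cell a t ∩ Xᶜ)ᶜ ∈ F
        · exfalso
          apply hpos t ht
          filter_upwards [h1, h2] with n hn1 hn2 hn
          by_cases hx : n ∈ X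
          · exact hn1 ⟨hn, hx⟩
          · exact hn2 ⟨hn, hx⟩
        · obtain ⟨c, n, h3, h4, h5⟩ := key _ h2
          exact ⟨c, n, h3, h4, Or.inr h5⟩
      · obtain ⟨c, n, h3, h4, h5⟩ := key _ h1
        exact ⟨c, n, h3, h4, Or.inl h5⟩
    obtain ⟨c, n, h3, h4, h5⟩ := hex
    obtain ⟨h6, h7⟩ := hs n ⟨c, h3, h5⟩
    refine ⟨s n, fun p hp => mem_iUnion.2 ⟨n, p, hp, rfl⟩, ?_, h7⟩
    apply cons_of_nonempty a
    rw [cell_union]
    exact ⟨n, h6, h4⟩

end support

/-- The index type of order type omega one. -/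
abbrev W : Type := (ℵ₁ : Cardinal.{0}).ord.ToType

theorem mk_W : #W = ℵ₁ := Cardinal.mk_ord_toType _

theorem bounded_of_countable (S : Set W) (hS : S.Countable) : ∃ α : W, ∀ β ∈ S, β < α := by
  by_contra h
  push Not at h
  have hc : (univ : Set W).Countable := by
    have hsub : (univ : Set W) ⊆ ⋃ β ∈ S, Iic β := by
      intro α _
      obtain ⟨β, hβ, hle⟩ := h α
      exact mem_biUnion hβ hle
    refine Set.Countable.mono hsub (hS.biUnion fun β _ => ?_)
    rw [← Set.Iio_insert]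
    refine Set.Countable.insert _ ?_
    rw [Cardinal.countable_iff_lt_aleph_one]
    exact Cardinal.mk_Iio_toType_ord_lt β
  rw [Cardinal.countable_iff_lt_aleph_one, Cardinal.mk_univ, mk_W] at hc
  exact lt_irrefl _ hc

/-- The main construction. -/
theorem main : ∃ (U : Ultrafilter ℕ) (p : W → Ultrafilter ℕ) (A : Set ℕ → Set ℕ) (e : W → Set ℕ),
    (U : Filter ℕ) ≤ cofinite ∧ (∀ α, (p α : Filter ℕ) ≤ cofinite) ∧
    (∀ i, A i ∈ U) ∧ (∀ Y ∈ U, {i | Y ⊆ A i}.Finite) ∧
    (∀ X ∈ U, ∃ α, ∀ β, α ≤ β → X ∈ p β) ∧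
    (∀ α β, α ≤ β → A (e β) ∉ p α) := by
  classical
  obtain ⟨a, ha⟩ := exists_indep
  obtain ⟨F, hFc, hpos, hmax⟩ := exists_maxFilter a ha
  have he : Nonempty (W ↪ Set ℕ) := by
    rw [← Cardinal.le_def, mk_W, Cardinal.mk_set_nat]
    exact Cardinal.aleph_one_le_continuum
  obtain ⟨e⟩ := he
  let A : Set ℕ → Set ℕ := fun i => {n | a i n = true}
  -- the ultrafilter U
  obtain ⟨U, hU⟩ := exists_ultra
    {Y | ∃ Z ∈ F, ∃ c : Finset (Set ℕ × Bool), (∀ q ∈ c, q.2 = true) ∧ Y = Z ∩ cell a c}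
    ⟨_, univ, univ_mem, ∅, by simp, rfl⟩
    (by
      rintro _ ⟨Z1, hZ1, c1, hc1, rfl⟩ _ ⟨Z2, hZ2, c2, hc2, rfl⟩
      refine ⟨Z1 ∩ Z2, inter_mem hZ1 hZ2, c1 ∪ c2, ?_, ?_⟩
      · intro q hq
        rcases Finset.mem_union.1 hq with h | h
        · exact hc1 q h
        · exact hc2 q h
      · rw [cell_union]; ext n; simp only [mem_inter_iff]; tauto)
    (by
      rintro _ ⟨Z, hZ, c, hc, rfl⟩
      refine pos_nonempty (hpos c ?_) hZ
      rintro i ⟨-, h2⟩
      exact Bool.noConfusion (hc _ h2))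
  have hFU : ∀ Z ∈ F, Z ∈ U := fun Z hZ =>
    hU Z ⟨Z, hZ, ∅, by simp, by rw [cell_empty, inter_univ]⟩
  have hAU : ∀ i, A i ∈ U := fun i =>
    hU _ ⟨univ, univ_mem, {(i, true)}, by simp, by ext n; simp [A, cell]⟩
  have hUpos : ∀ X ∈ U, Xᶜ ∉ F := fun X hX h =>
    (Ultrafilter.compl_mem_iff_notMem.1 (hFU _ h)) hX
  -- the algebras
  let B : W → Set (Set ℕ) := fun α => {X | ∃ D, Supp a F X D ∧ ∀ β, α ≤ β → e β ∉ D}
  have hBall : ∀ X, ∃ α, ∀ β, α ≤ β → X ∈ B β := by
    intro X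
    obtain ⟨D, hD, hS⟩ := exists_countable_supp hpos hmax X
    obtain ⟨α, hα⟩ := bounded_of_countable (e ⁻¹' D) (hD.preimage_of_injOn e.injective.injOn)
    exact ⟨α, fun β hβ => ⟨D, hS, fun γ hγ h => absurd (hα γ h) (not_lt.2 (hβ.trans hγ))⟩⟩
  have hp : ∀ α : W, ∃ q : Ultrafilter ℕ, ∀ Y ∈
      {Y | ∃ Z ∈ F, ∃ X ∈ U, X ∈ B α ∧ ∃ c : Finset (Set ℕ × Bool),
        (∀ q ∈ c, q.2 = false ∧ ∃ β, α ≤ β ∧ q.1 = e β) ∧ Y = Z ∩ X ∩ cell a c}, Y ∈ q := by
    intro α
    apply exists_ultra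
    · exact ⟨_, univ, univ_mem, univ, univ_mem, ⟨∅, supp_univ, by simp⟩, ∅, by simp, rfl⟩
    · rintro _ ⟨Z1, hZ1, X1, hX1, ⟨D1, hD1, hD1'⟩, c1, hc1, rfl⟩
        _ ⟨Z2, hZ2, X2, hX2, ⟨D2, hD2, hD2'⟩, c2, hc2, rfl⟩
      refine ⟨Z1 ∩ Z2, inter_mem hZ1 hZ2, X1 ∩ X2, inter_mem hX1 hX2,
        ⟨D1 ∪ D2, hD1.inter hD2, ?_⟩, c1 ∪ c2, ?_, ?_⟩
      · rintro β hβ (h | h)
        · exact hD1' β hβ h
        · exact hD2' β hβ h
      · intro q hq
        rcases Finset.mem_union.1 hq with h | h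
        · exact hc1 q h
        · exact hc2 q h
      · rw [cell_union]; ext n; simp only [mem_inter_iff]; tauto
    · rintro _ ⟨Z, hZ, X, hX, ⟨D, hD, hD'⟩, c, hc, rfl⟩
      obtain ⟨t, ht, hft⟩ := hmax X (hUpos X hX)
      obtain ⟨s, hs, hst, hdec⟩ := hD t ht
      have hsX : Forces a F s X := by
        rcases hdec with h | h
        · exact h
        · exfalso
          obtain ⟨n, ⟨hn1, hn2⟩, hn3⟩ := pos_nonempty (hpos _ hst) (inter_mem h hft)
          rw [cell_union] at hn3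
          exact hn1 hn3.1 (hn2 hn3.2)
      have hsc : Cons (s ∪ c) := by
        rintro i ⟨h1, h2⟩
        rcases Finset.mem_union.1 h1 with h1 | h1
        · rcases Finset.mem_union.1 h2 with h2 | h2
          · exact hst i ⟨Finset.mem_union_left _ h1, Finset.mem_union_left _ h2⟩
          · obtain ⟨-, β, hβ, hi⟩ := hc _ h2
            apply hD' β hβ
            have := hs _ h1
            simp only at hi this
            rwa [← hi]
        · exact Bool.noConfusion (hc _ h1).1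
      obtain ⟨n, ⟨hn1, hn2⟩, hn3⟩ := pos_nonempty (hpos _ hsc) (inter_mem hZ hsX)
      rw [cell_union] at hn3
      exact ⟨n, ⟨hn1, hn2 hn3.1⟩, hn3.2⟩
  choose p hp using hp
  have hBuniv : ∀ α, univ ∈ B α := fun α => ⟨∅, supp_univ, by simp⟩
  refine ⟨U, p, A, e, fun Z hZ => hFU Z (hFc hZ), fun α Z hZ => ?_, hAU, ?_, ?_, ?_⟩
  · exact hp α Z ⟨Z, hFc hZ, univ, univ_mem, hBuniv α, ∅, by simp,
      by rw [cell_empty, inter_univ, inter_univ]⟩
  · intro Y hY
    by_contra hinf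
    obtain ⟨t, ht, hft⟩ := hmax Y (hUpos Y hY)
    obtain ⟨i, hi, hit⟩ := Set.Infinite.exists_notMem_finset hinf (t.image Prod.fst)
    have hc : Cons (t ∪ {(i, false)}) := by
      rintro j ⟨h1, h2⟩
      rcases Finset.mem_union.1 h1 with h1 | h1
      · rcases Finset.mem_union.1 h2 with h2 | h2
        · exact ht j ⟨h1, h2⟩
        · have : j = i := by simpa using h2
          exact hit (Finset.mem_image.2 ⟨(j, true), h1, this⟩)
      · simp at h1
    obtain ⟨n, hn1, hn2⟩ := pos_nonempty (hpos _ hc) hft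
    rw [cell_union] at hn2
    have h3 : a i n = true := hi (hn1 hn2.1)
    have h4 : a i n = false := hn2.2 (i, false) (by simp)
    rw [h3] at h4
    exact Bool.noConfusion h4
  · intro X hX
    obtain ⟨α, hα⟩ := hBall X
    exact ⟨α, fun β hβ => hp β X ⟨univ, univ_mem, X, hX, hα β hβ, ∅, by simp,
      by rw [cell_empty, inter_univ, univ_inter]⟩⟩
  · intro α β hαβ
    rw [← Ultrafilter.compl_mem_iff_notMem]
    refine hp α _ ⟨univ, univ_mem, univ, univ_mem, hBuniv α, {(e β, false)}, ?_, ?_⟩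
    · intro q hq
      have : q = (e β, false) := by simpa using hq
      subst this
      exact ⟨rfl, β, hαβ, rfl⟩
    · ext n; simp [A, cell]

end Pool.Agent.P.MP_f21612_lc
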